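import Pool.Agent.helper49.Pow.Stage

/-!
# The number of odd terms in the last steps before a passage point
-/

namespace Pool.Agent.helper82.V

open Pool.Agent.helper49.Pow

/-- Twice the number of the odd terms among the first `k`, minus `k`. -/
noncomputable def dv (k n : ℕ) : ℝ := 2 * (od k n : ℝ) - k

theorem dv_add (j i n : ℕ) : dv (j + i) n = dv j n + dv i (T^[j] n) := by
  unfold dv
  rw [od_add]
  push_cast
  ring

/-- The deviations of the suffixes, from one passage point to the next. -/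
theorem dev_step {j l n : ℕ} {a B B' D : ℝ} (ha : 0 ≤ a)
    (h1 : ∀ i ≤ j, |dv i (T^[j - i] n)| ≤ a * i + B)
    (h2 : ∀ i ≤ l, |dv i (T^[j] n)| ≤ D) (hB : 2 * D ≤ B')
    (hl : 1 ≤ j → B + D ≤ a * l + B') :
    ∀ i ≤ j + l, |dv i (T^[j + l - i] n)| ≤ a * i + B' := by
  intro i hi
  have hi0 : (0 : ℝ) ≤ a * i := mul_nonneg ha (Nat.cast_nonneg i)
  rcases Nat.lt_or_ge l i with hil | hil
  · obtain ⟨i', rfl⟩ := Nat.exists_eq_add_of_le hil.le
    have e1 : j + l - (l + i') = j - i' := by omega
    rw [e1, add_comm l i', dv_add]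
    have e2 : T^[i'] (T^[j - i'] n) = T^[j] n := by
      rw [← Function.iterate_add_apply]
      congr 1
      congr 1
      omega
    rw [e2]
    have h3 := h1 i' (by omega)
    have h4 := h2 l le_rfl
    have h5 := hl (by omega)
    have h6 := abs_add_le (dv i' (T^[j - i'] n)) (dv l (T^[j] n))
    push_cast
    linarith
  · have e1 : T^[j + l - i] n = T^[l - i] (T^[j] n) := by
      rw [← Function.iterate_add_apply]
      congr 1
      congr 1
      omega
    rw [e1]
    have h3 := dv_add (l - i) i (T^[j] n)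
    have h4 : l - i + i = l := by omega
    rw [h4] at h3
    have h5 : dv i (T^[l - i] (T^[j] n)) = dv l (T^[j] n) - dv (l - i) (T^[j] n) := by linarith
    rw [h5]
    have h6 := abs_sub (dv l (T^[j] n)) (dv (l - i) (T^[j] n))
    have h7 := h2 l le_rfl
    have h8 := h2 (l - i) (by omega)
    linarith

theorem le_two_T' (n : ℕ) : n ≤ 2 * T n := by
  rcases Nat.mod_two_eq_zero_or_one n with h | h
  · rw [two_T_even h]
  · rw [two_T_odd h]; omega

theorem le_two_pow (l : ℕ) : ∀ z : ℕ, z ≤ 2 ^ l * T^[l] z := by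
  induction l with
  | zero => intro z; simp
  | succ l ih =>
    intro z
    rw [Function.iterate_succ_apply]
    calc z ≤ 2 * T z := le_two_T' z
      _ ≤ 2 * (2 ^ l * T^[l] (T z)) := Nat.mul_le_mul_left 2 (ih (T z))
      _ = 2 ^ (l + 1) * T^[l] (T z) := by ring

/-- The form of the hypothesis of the pointwise bound. -/
theorem typ_of_dev {i m : ℕ} {e a B K : ℝ} (ha : a ≤ 54 * e) (hB : B ≤ 6 * e * K)
    (he : e ≤ 1 / 3000) (he0 : 0 ≤ e) (hK : K ≤ i) (h : |dv i m| ≤ a * i + B) :
    49 * i ≤ 100 * od i m ∧ 100 * od i m ≤ 51 * i := by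
  have hi : (0 : ℝ) ≤ i := Nat.cast_nonneg i
  have h1 : a * i ≤ 54 * e * i := mul_le_mul_of_nonneg_right ha hi
  have h2 : 6 * e * K ≤ 6 * e * i := mul_le_mul_of_nonneg_left hK (by positivity)
  have h3 : e * i ≤ 1 / 3000 * i := mul_le_mul_of_nonneg_right he hi
  have h4 : |dv i m| ≤ i / 50 := by linarith
  rw [abs_le] at h4
  unfold dv at h4
  constructor
  · have : (49 : ℝ) * i ≤ 100 * od i m := by linarith [h4.1]
    exact_mod_cast this
  · have : (100 : ℝ) * od i m ≤ 51 * i := by linarith [h4.2]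
    exact_mod_cast this

end Pool.Agent.helper82.V
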